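import Mathlib
import Pool.Agent.R246.GF.Stm

/-! GF-TAY (subtask 2507): multivariate Taylor polynomials as `MvPolynomial`. -/

namespace Pool.Agent.R392.GF

open scoped Topology Nat
open Filter Set Pool.Agent.R246.GF

lemma iteratedDeriv_line {E F : Type*} [NormedAddCommGroup E] [NormedSpace ℝ E]
    [NormedAddCommGroup F] [NormedSpace ℝ F] (u : E → F)
    (hu : ContDiff ℝ ((⊤ : ℕ∞) : WithTop ℕ∞) u) (P h : E) (j : ℕ) (t : ℝ) :
    iteratedDeriv j (fun s : ℝ => u (P + s • h)) t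
      = iteratedFDeriv ℝ j u (P + t • h) (fun _ => h) := by
  have h1 : (fun s : ℝ => u (P + s • h))
      = (fun z => u (P + z)) ∘ (ContinuousLinearMap.toSpanSingleton ℝ h) := by
    funext s
    simp [ContinuousLinearMap.toSpanSingleton_apply]
  have h2 : ContDiff ℝ ((⊤ : ℕ∞) : WithTop ℕ∞) (fun z => u (P + z)) :=
    hu.comp (contDiff_const.add contDiff_id)
  rw [iteratedDeriv_eq_iteratedFDeriv, h1,
    ContinuousLinearMap.iteratedFDeriv_comp_right _ h2 _ (i := j) (by exact_mod_cast le_top),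
    iteratedFDeriv_comp_add_left]
  simp [ContinuousMultilinearMap.compContinuousLinearMap_apply,
    ContinuousLinearMap.toSpanSingleton_apply]

lemma multilinear_expand {ι : Type*} [Fintype ι] [DecidableEq ι] (j : ℕ)
    (m : ContinuousMultilinearMap ℝ (fun _ : Fin j => (ι → ℝ)) ℂ) (h : ι → ℝ) :
    m (fun _ => h) = ∑ r : Fin j → ι,
      ((∏ k, h (r k) : ℝ) : ℂ) * m (fun k => Pi.single (r k) 1) := by
  have h1 : h = ∑ i, h i • (Pi.single i 1 : ι → ℝ) := by
    funext a
    simp [Finset.sum_apply, Pi.single_apply]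
  have h2 : m (fun _ => h) = m (fun _ : Fin j => ∑ i, h i • (Pi.single i 1 : ι → ℝ)) := by
    congr 1
    funext _
    exact h1
  rw [h2, ContinuousMultilinearMap.map_sum]
  refine Finset.sum_congr rfl fun r _ => ?_
  rw [ContinuousMultilinearMap.map_smul_univ]
  rw [Complex.real_smul]

/-- the Taylor polynomial -/
noncomputable def tp {n : ℕ} (u : Pt n → ℂ) (P : Pt n) (K : ℕ) : Pol n :=
  ∑ j ∈ Finset.range (K + 1), MvPolynomial.C (((j ! : ℝ)⁻¹ : ℝ) : ℂ) *
    ∑ r : Fin j → Fin n × Fin n,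
      MvPolynomial.C (iteratedFDeriv ℝ j u P (fun k => Pi.single (r k) 1)) *
        ∏ k, (MvPolynomial.X (r k) - MvPolynomial.C ((P (r k) : ℝ) : ℂ))

lemma ev_tp {n : ℕ} (u : Pt n → ℂ) (P X : Pt n) (K : ℕ) :
    ev X (tp u P K) = ∑ j ∈ Finset.range (K + 1),
      (((j ! : ℝ)⁻¹ : ℝ) : ℂ) * iteratedFDeriv ℝ j u P (fun _ => X - P) := by
  unfold tp
  rw [map_sum]
  refine Finset.sum_congr rfl fun j _ => ?_
  rw [map_mul, map_sum, multilinear_expand]
  have hC : ∀ c : ℂ, ev X (MvPolynomial.C c : Pol n) = c := by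
    intro c
    simp [ev]
  have hX : ∀ i, ev X (MvPolynomial.X i : Pol n) = ((X i : ℝ) : ℂ) := by
    intro i
    simp [ev]
  rw [hC]
  congr 1
  refine Finset.sum_congr rfl fun r _ => ?_
  rw [map_mul, hC, map_prod, mul_comm]
  congr 1
  rw [Complex.ofReal_prod]
  refine Finset.prod_congr rfl fun k _ => ?_
  rw [map_sub, hC, hX]
  simp

theorem tay : STAY := by
  intro n u hu P K
  refine ⟨tp u P K, ?_⟩
  -- bound on the derivative of order `K + 1`
  have hcont : Continuous (fun X => iteratedFDeriv ℝ (K + 1) u X) :=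
    hu.continuous_iteratedFDeriv (m := K + 1) (by exact_mod_cast le_top)
  obtain ⟨C, hC⟩ := (isCompact_closedBall P 1).exists_bound_of_continuousOn hcont.continuousOn
  have hC0 : 0 ≤ C := (norm_nonneg _).trans (hC P (Metric.mem_closedBall_self zero_le_one))
  rw [Asymptotics.isBigO_iff]
  refine ⟨C / K !, ?_⟩
  filter_upwards [Metric.closedBall_mem_nhds P one_pos] with X hX
  set h : Pt n := X - P with hh
  have hh1 : ‖h‖ ≤ 1 := by
    rw [hh, ← dist_eq_norm]
    exact Metric.mem_closedBall.1 hX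
  set f : ℝ → ℂ := fun s => u (P + s • h) with hf
  have hfd : ContDiff ℝ ((⊤ : ℕ∞) : WithTop ℕ∞) f :=
    hu.comp (contDiff_const.add (contDiff_id.smul contDiff_const))
  have hder : ∀ j : ℕ, ∀ t ∈ Icc (0 : ℝ) 1, iteratedDerivWithin j f (Icc 0 1) t
      = iteratedFDeriv ℝ j u (P + t • h) (fun _ => h) := by
    intro j t ht
    rw [iteratedDerivWithin_eq_iteratedDeriv (uniqueDiffOn_Icc zero_lt_one)
      (hfd.contDiffAt.of_le (by exact_mod_cast le_top)) ht, hf, iteratedDeriv_line u hu]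
  have hb : ∀ y ∈ Icc (0 : ℝ) 1, ‖iteratedDerivWithin (K + 1) f (Icc 0 1) y‖
      ≤ C * ‖h‖ ^ (K + 1) := by
    intro y hy
    rw [hder _ y hy]
    refine (ContinuousMultilinearMap.le_opNorm _ _).trans ?_
    rw [Finset.prod_const, Finset.card_univ, Fintype.card_fin]
    refine mul_le_mul_of_nonneg_right ?_ (by positivity)
    apply hC
    rw [Metric.mem_closedBall, dist_eq_norm, add_sub_cancel_left, norm_smul, Real.norm_eq_abs,
      abs_of_nonneg hy.1]
    exact mul_le_one₀ hy.2 (norm_nonneg _) hh1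
  have hT := taylor_mean_remainder_bound (f := f) (a := 0) (b := 1) (x := 1) (n := K)
    zero_le_one ((hfd.of_le (by exact_mod_cast le_top)).contDiffOn) (right_mem_Icc.2 zero_le_one) hb
  have e1 : f 1 = u X := by simp [hf, hh]
  have e2 : taylorWithinEval f K (Icc 0 1) 0 1 = ev X (tp u P K) := by
    rw [taylor_within_apply, ev_tp]
    refine Finset.sum_congr rfl fun j _ => ?_
    rw [hder _ 0 (left_mem_Icc.2 zero_le_one), hh]
    simp [Complex.real_smul]
  rw [e1, e2] at hT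
  refine hT.trans ?_
  rw [norm_pow, norm_norm, sub_zero, one_pow, mul_one]
  have h3 : ‖h‖ ^ (K + 1) ≤ ‖h‖ ^ K := pow_le_pow_of_le_one (norm_nonneg _) hh1 (Nat.le_succ K)
  calc C * ‖h‖ ^ (K + 1) / K ! ≤ C * ‖h‖ ^ K / K ! := by gcongr
    _ = C / K ! * ‖h‖ ^ K := by ring

end Pool.Agent.R392.GF
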